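import Pool.Agent.Q208.CF.Sums

/-!
# Sets of numbers recognised by finite automata have context-free languages of expansions
-/

set_option autoImplicit false

open Set

namespace Pool.Agent.Q208.CF

theorem D.cons_term {T : Type} {G : ContextFreeGrammar.{0} T} {S : Set G.NT} {t : T}
    {α : List (Symbol T G.NT)} {w : List T} (h : D G S (Symbol.terminal t :: α) w) :
    ∃ w', w = t :: w' ∧ D G S α w' := by
  generalize hγ : Symbol.terminal t :: α = γ at h
  cases h with
  | nil => exact absurd hγ (by simp)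
  | term t' δ v h1 =>
    obtain ⟨h2, rfl⟩ := List.cons.inj hγ
    have h3 : t = t' := Symbol.terminal.inj h2
    subst h3
    exact ⟨v, rfl, h1⟩
  | nt r δ v₁ v₂ hr hS1 h1 h2 => exact absurd (List.cons.inj hγ).1 (by simp)

theorem D.eq_nil {T : Type} {G : ContextFreeGrammar.{0} T} {S : Set G.NT}
    {w : List T} (h : D G S [] w) : w = [] := by
  cases h
  rfl

open Classical in
/-- The rules of the grammar `autG`. -/
noncomputable def autRules (g : ℕ) {σ : Type} [Fintype σ] (M : DFA ℕ σ) :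
    Finset (ContextFreeRule ℕ (σ × Bool)) :=
  (((Finset.univ : Finset (σ × Bool)) ×ˢ Finset.range g).image fun p : (σ × Bool) × ℕ =>
      (⟨p.1, [Symbol.terminal p.2, Symbol.nonterminal (M.step p.1.1 p.2, decide (p.2 ≠ 0))]⟩ :
        ContextFreeRule ℕ (σ × Bool))) ∪
    (((Finset.univ : Finset σ).filter fun s => s ∈ M.accept).image fun s =>
      (⟨(s, true), []⟩ : ContextFreeRule ℕ (σ × Bool)))

/-- The grammar of the base-`g` expansions accepted by the automaton `M`. -/
noncomputable def autG (g : ℕ) {σ : Type} [Fintype σ] (M : DFA ℕ σ) : ContextFreeGrammar.{0} ℕ where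
  NT := σ × Bool
  initial := (M.start, true)
  rules := autRules g M

theorem autRules_iff {g : ℕ} {σ : Type} [Fintype σ] {M : DFA ℕ σ}
    {r : ContextFreeRule ℕ (σ × Bool)} : r ∈ autRules g M ↔
      (∃ (s : σ) (b : Bool) (d : ℕ), d < g ∧ r = ⟨(s, b),
        [Symbol.terminal d, Symbol.nonterminal (M.step s d, decide (d ≠ 0))]⟩) ∨
      ∃ s, s ∈ M.accept ∧ r = ⟨(s, true), []⟩ := by
  classical
  unfold autRules
  rw [Finset.mem_union, Finset.mem_image, Finset.mem_image]
  constructor
  · rintro (⟨⟨⟨s, b⟩, d⟩, h, rfl⟩ | ⟨s, h, rfl⟩)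
    · simp only [Finset.mem_product, Finset.mem_univ, true_and, Finset.mem_range] at h
      exact Or.inl ⟨s, b, d, h, rfl⟩
    · simp only [Finset.mem_filter, Finset.mem_univ, true_and] at h
      exact Or.inr ⟨s, h, rfl⟩
  · rintro (⟨s, b, d, h, rfl⟩ | ⟨s, h, rfl⟩)
    · exact Or.inl ⟨⟨⟨s, b⟩, d⟩, by simp [h], rfl⟩
    · exact Or.inr ⟨s, by simp [h], rfl⟩

theorem autG_rules {g : ℕ} {σ : Type} [Fintype σ] {M : DFA ℕ σ}
    {r : ContextFreeRule ℕ (σ × Bool)} : r ∈ (autG g M).rules ↔
      (∃ (s : σ) (b : Bool) (d : ℕ), d < g ∧ r = ⟨(s, b),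
        [Symbol.terminal d, Symbol.nonterminal (M.step s d, decide (d ≠ 0))]⟩) ∨
      ∃ s, s ∈ M.accept ∧ r = ⟨(s, true), []⟩ := autRules_iff

theorem autG_D {g : ℕ} {σ : Type} [Fintype σ] {M : DFA ℕ σ} (w : List ℕ) : ∀ (s : σ) (b : Bool),
    D (autG g M) univ [Symbol.nonterminal ((s, b) : σ × Bool)] w ↔
      (M.evalFrom s w ∈ M.accept ∧ (∀ d ∈ w, d < g) ∧ (w = [] → b = true) ∧
        ∀ h : w ≠ [], w.getLast h ≠ 0) := by
  induction w with
  | nil =>
    intro s b
    constructor
    · intro h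
      obtain ⟨r, hr, h1, -, h2⟩ := h.single
      rcases autG_rules.1 hr with ⟨s', b', d, hd, rfl⟩ | ⟨s', hs', rfl⟩
      · obtain ⟨w', h3, -⟩ := D.cons_term h2
        exact absurd h3 (by simp)
      · have h3 : ((s', true) : σ × Bool) = (s, b) := h1
        obtain ⟨rfl, rfl⟩ := Prod.mk.inj h3
        exact ⟨hs', by simp, fun _ => rfl, fun h => absurd rfl h⟩
    · rintro ⟨h1, -, h2, -⟩
      have hb := h2 rfl
      subst hb
      have hr : (⟨(s, true), []⟩ : ContextFreeRule ℕ (σ × Bool)) ∈ (autG g M).rules :=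
        autG_rules.2 (Or.inr ⟨s, h1, rfl⟩)
      exact D.of_rule hr (mem_univ _) D.nil
  | cons d w ih =>
    intro s b
    constructor
    · intro h
      obtain ⟨r, hr, h1, -, h2⟩ := h.single
      rcases autG_rules.1 hr with ⟨s', b', d', hd, rfl⟩ | ⟨s', hs', rfl⟩
      · have h3 : ((s', b') : σ × Bool) = (s, b) := h1
        obtain ⟨rfl, rfl⟩ := Prod.mk.inj h3
        obtain ⟨w', hw', h4⟩ := D.cons_term h2
        obtain ⟨rfl, rfl⟩ := List.cons.inj hw'
        obtain ⟨h5, h6, h7, h8⟩ := (ih _ _).1 h4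
        refine ⟨h5, ?_, fun h => absurd h (by simp), fun h => ?_⟩
        · intro x hx
          rcases List.mem_cons.1 hx with rfl | hx
          · exact hd
          · exact h6 x hx
        · by_cases hw : w = []
          · subst hw
            have := h7 rfl
            simpa using this
          · rw [List.getLast_cons hw]
            exact h8 hw
      · exact absurd (D.eq_nil h2) (by simp)
    · rintro ⟨h1, h2, -, h3⟩
      have hr : (⟨(s, b), [Symbol.terminal d, Symbol.nonterminal (M.step s d, decide (d ≠ 0))]⟩ :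
          ContextFreeRule ℕ (σ × Bool)) ∈ (autG g M).rules :=
        autG_rules.2 (Or.inl ⟨s, b, d, h2 d (by simp), rfl⟩)
      refine D.of_rule hr (mem_univ _) (D.term d _ _ ((ih _ _).2 ⟨h1, ?_, ?_, ?_⟩))
      · exact fun x hx => h2 x (by simp [hx])
      · intro hw
        subst hw
        have := h3 (by simp)
        simpa using this
      · intro hw
        have := h3 (by simp)
        rwa [List.getLast_cons hw] at this

theorem isContextFree_of_dfa {g : ℕ} (hg : 2 ≤ g) {σ : Type} [Fintype σ] (M : DFA ℕ σ) (A : Set ℕ)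
    (hA : ∀ n, Nat.digits g n ∈ M.accepts ↔ n ∈ A) :
    Language.IsContextFree (T := ℕ) (Nat.digits g '' A) := by
  refine ⟨autG g M, ?_⟩
  ext w
  rw [mem_language_iff]
  have h0 := autG_D (g := g) (M := M) w M.start true
  refine h0.trans ?_
  have h1 : w ∈ (Nat.digits g '' A : Set (List ℕ)) ↔ (w ∈ (Nat.digits g '' A : Set (List ℕ))) :=
    Iff.rfl
  refine Iff.trans ?_ h1
  constructor
  · rintro ⟨h2, h3, -, h4⟩
    have h5 : Nat.digits g (Nat.ofDigits g w) = w := Nat.digits_ofDigits g (by omega) w h3 h4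
    refine ⟨Nat.ofDigits g w, (hA _).1 ?_, h5⟩
    rw [h5]
    exact h2
  · rintro ⟨n, hn, rfl⟩
    refine ⟨(hA n).2 hn, fun d hd => Nat.digits_lt_base (by omega) hd, fun _ => rfl, fun h => ?_⟩
    exact Nat.getLast_digit_ne_zero g (by rintro rfl; simp at h)

end Pool.Agent.Q208.CF
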