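import Pool.Agent.Q208.CF.Trees

/-!
# Many representations from two contexts of the same shape
-/

set_option autoImplicit false

open Set

namespace Pool.Agent.Q208.CF

/-- The set of unordered representations of `n` as a sum of `h` elements of `A`. -/
def reps (A : Set ℕ) (h n : ℕ) : Set (Multiset ℕ) :=
  {s | Multiset.card s = h ∧ (∀ a ∈ s, a ∈ A) ∧ s.sum = n}

theorem reps_finite (A : Set ℕ) (h n : ℕ) : (reps A h n).Finite := by
  have hf : (Set.Iic (h • (Multiset.range (n + 1)))).Finite := Set.finite_Iic _
  refine hf.subset ?_
  rintro s ⟨h1, -, h3⟩
  rw [Set.mem_Iic, Multiset.le_iff_count]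
  intro a
  rw [Multiset.count_nsmul]
  by_cases ha : a ∈ s
  · have h4 : a ≤ s.sum := Multiset.single_le_sum (fun _ _ => Nat.zero_le _) a ha
    have h5 : a ∈ Multiset.range (n + 1) := by
      rw [Multiset.mem_range]; omega
    rw [Multiset.count_eq_one_of_mem (Multiset.nodup_range _) h5, mul_one, ← h1]
    exact Multiset.count_le_card a s
  · rw [Multiset.count_eq_zero_of_notMem ha]
    exact Nat.zero_le _

section
variable (u v u' v' z : List ℕ)

/-- The left context. -/
def lc (c : Bool) : List ℕ := bif c then u' else u

/-- The words obtained from `z` by inserting the two contexts in the order given. -/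
def inner : List Bool → List ℕ
  | [] => z
  | c :: e => lc u u' c ++ (inner e ++ lc v v' c)

variable {u v u' v' z}

theorem lc_length (hu : u.length = u'.length) (c : Bool) : (lc u u' c).length = u.length := by
  cases c
  · rfl
  · exact hu.symm

theorem inner_length (hu : u.length = u'.length) (hv : v.length = v'.length) (e : List Bool) :
    (inner u v u' v' z e).length = z.length + e.length * (u.length + v.length) := by
  induction e with
  | nil => simp [inner]
  | cons c e ih =>
    rw [inner, List.length_append, List.length_append, ih, lc_length hu, lc_length hv,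
      List.length_cons]
    ring

theorem inner_injective (hu : u.length = u'.length) (hv : v.length = v'.length)
    (hne : ¬ (u = u' ∧ v = v')) : ∀ e f : List Bool, e.length = f.length →
      inner u v u' v' z e = inner u v u' v' z f → e = f := by
  intro e
  induction e with
  | nil =>
    intro f hf _
    rw [List.length_nil] at hf
    exact (List.length_eq_zero_iff.1 hf.symm).symm
  | cons c e ih =>
    intro f hf h
    cases f with
    | nil => simp at hf
    | cons d f =>
      rw [inner, inner] at h
      have hl : e.length = f.length := by simpa using hf
      obtain ⟨h1, h2⟩ := List.append_inj h (by rw [lc_length hu, lc_length hu])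
      obtain ⟨h3, h4⟩ := List.append_inj h2 (by rw [inner_length hu hv, inner_length hu hv, hl])
      have hcd : c = d := by
        cases c <;> cases d
        · rfl
        · exact absurd ⟨h1, h4⟩ hne
        · exact absurd ⟨h1.symm, h4.symm⟩ hne
        · rfl
      rw [hcd, ih f hl h3]

theorem inner_sum (g : ℕ) (hu : u.length = u'.length) (hv : v.length = v'.length) (m : ℕ) :
    ∃ S : ℕ, ∀ e : List Bool, e.length = m →
      Nat.ofDigits g (inner u v u' v' z e) + Nat.ofDigits g (inner u v u' v' z (e.map not)) = S := by
  induction m with
  | zero =>
    refine ⟨Nat.ofDigits g z + Nat.ofDigits g z, fun e he => ?_⟩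
    rw [List.length_eq_zero_iff] at he
    subst he
    rfl
  | succ m ih =>
    obtain ⟨S, hS⟩ := ih
    refine ⟨(Nat.ofDigits g u + Nat.ofDigits g u') + g ^ u.length *
      (S + g ^ (z.length + m * (u.length + v.length)) * (Nat.ofDigits g v + Nat.ofDigits g v')),
      fun e he => ?_⟩
    cases e with
    | nil => simp at he
    | cons c e =>
      have hl : e.length = m := by simpa using he
      have h1 := hS e hl
      rw [List.map_cons, inner, inner, Nat.ofDigits_append, Nat.ofDigits_append,
        Nat.ofDigits_append, Nat.ofDigits_append, inner_length hu hv, inner_length hu hv,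
        List.length_map, hl, lc_length hu, lc_length hu, ← h1]
      cases c
      · simp only [lc, cond_false, cond_true, Bool.not_false]
        ring
      · simp only [lc, cond_false, cond_true, Bool.not_true]
        ring

end

/-- Two different contexts of the same shape give exponentially many representations. -/
theorem many_of_not_noPair {g : ℕ} (hg : 2 ≤ g) {A : Set ℕ} {G : ContextFreeGrammar.{0} ℕ}
    (hG : (G.language : Set (List ℕ)) = Nat.digits g '' A) (hN : ¬ NoPair G) (h : ℕ) (hh : 2 ≤ h) :
    ∃ c : ℕ, ∀ m : ℕ, ∃ N : ℕ, N ≤ g ^ (c * (m + 1)) ∧ 2 ^ m ≤ (reps A h N).ncard := by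
  unfold NoPair at hN
  push Not at hN
  obtain ⟨X, ⟨a, b, hab⟩, ⟨z, hz⟩, u, v, u', v', huv, huv', hu, hv, hne⟩ := hN
  have hne' : ¬ (u = u' ∧ v = v') := fun h => hne h.1 h.2
  set I : List Bool → List ℕ := inner u v u' v' z with hI
  have hD : ∀ e, D G univ [Symbol.nonterminal X] (I e) := by
    intro e
    induction e with
    | nil => exact hz
    | cons c e ih =>
      rw [hI, inner, ← List.append_assoc]
      cases c
      · exact huv _ ih
      · exact huv' _ ih
  have hW : ∀ e, a ++ I e ++ b ∈ (G.language : Set (List ℕ)) := fun e =>
    (mem_language_iff _).2 (hab _ (hD e))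
  have hex : ∀ e, ∃ x ∈ A, Nat.digits g x = a ++ I e ++ b := by
    intro e
    have := hW e
    rw [hG] at this
    exact this
  choose x hxA hx using hex
  have hxI : ∀ e f, e.length = f.length → x e = x f → e = f := by
    intro e f hl hef
    have h1 : a ++ I e ++ b = a ++ I f ++ b := by rw [← hx, ← hx, hef]
    have h2 : I e = I f := List.append_cancel_left (List.append_cancel_right h1)
    exact inner_injective hu hv hne' e f hl h2
  have hxv : ∀ e, x e = Nat.ofDigits g a + g ^ a.length * (Nat.ofDigits g (I e) +
      g ^ (z.length + e.length * (u.length + v.length)) * Nat.ofDigits g b) := by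
    intro e
    rw [← Nat.ofDigits_digits g (x e), hx, List.append_assoc, Nat.ofDigits_append,
      Nat.ofDigits_append, hI, inner_length hu hv]
  have hxlt : ∀ e, x e < g ^ (a.length + (z.length + e.length * (u.length + v.length)) +
      b.length) := by
    intro e
    have := Nat.lt_base_pow_length_digits (b := g) (m := x e) (by omega)
    rw [hx, List.length_append, List.length_append, hI, inner_length hu hv] at this
    exact this
  obtain ⟨k, rfl⟩ : ∃ k, h = k + 2 := ⟨h - 2, by omega⟩
  refine ⟨k + 2 + a.length + b.length + z.length + u.length + v.length, fun m => ?_⟩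
  obtain ⟨S, hS⟩ := inner_sum (z := z) g hu hv (m + 1)
  let M : List Bool → Multiset ℕ := fun t =>
    x (true :: t) ::ₘ x (false :: t.map not) ::ₘ Multiset.replicate k (x [])
  set P := g ^ (z.length + (m + 1) * (u.length + v.length)) with hP
  set N := 2 * Nat.ofDigits g a + g ^ a.length * (S + 2 * (P * Nat.ofDigits g b)) + k * x []
    with hNdef
  have hsum : ∀ t : List Bool, t.length = m → (M t).sum = N := by
    intro t ht
    have h1 := hS (true :: t) (by simp [ht])
    rw [List.map_cons, Bool.not_true] at h1
    simp only [M, Multiset.sum_cons, Multiset.sum_replicate, smul_eq_mul]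
    rw [hxv (true :: t), hxv (false :: t.map not), hNdef, ← h1, List.length_cons, List.length_cons,
      List.length_map, ht, ← hP]
    ring
  refine ⟨N, ?_, ?_⟩
  · -- the bound
    obtain ⟨t, ht⟩ : ∃ t : List Bool, t.length = m := ⟨List.replicate m true, by simp⟩
    rw [← hsum t ht]
    set Q := g ^ (a.length + (z.length + (m + 1) * (u.length + v.length)) + b.length) with hQ
    have h1 : x (true :: t) ≤ Q := by
      have := hxlt (true :: t)
      rw [List.length_cons, ht, ← hQ] at this
      exact this.le
    have h2 : x (false :: t.map not) ≤ Q := by
      have := hxlt (false :: t.map not)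
      rw [List.length_cons, List.length_map, ht, ← hQ] at this
      exact this.le
    have h3 : x [] ≤ Q := by
      refine (hxlt []).le.trans (Nat.pow_le_pow_right (by omega) ?_)
      simp
    have h4 : (M t).sum ≤ (k + 2) * Q := by
      simp only [M, Multiset.sum_cons, Multiset.sum_replicate, smul_eq_mul]
      have := Nat.mul_le_mul_left k h3
      have e1 : (k + 2) * Q = k * Q + Q + Q := by ring
      omega
    refine h4.trans ?_
    have h5 : k + 2 ≤ g ^ (k + 2) := (Nat.lt_pow_self (by omega : 1 < g)).le
    calc (k + 2) * Q ≤ g ^ (k + 2) * Q := Nat.mul_le_mul_right _ h5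
      _ = g ^ (k + 2 + (a.length + (z.length + (m + 1) * (u.length + v.length)) + b.length)) := by
        rw [hQ, ← pow_add]
      _ ≤ _ := by
        refine Nat.pow_le_pow_right (by omega) ?_
        have e1 : (k + 2 + a.length + b.length + z.length + u.length + v.length) * (m + 1) =
          (k + 2 + a.length + b.length + z.length) * m +
          (k + 2 + a.length + b.length + z.length) + (m + 1) * (u.length + v.length) := by ring
        omega
  · -- the count
    have hinj : Function.Injective fun t : Fin m → Bool => M (List.ofFn t) := by
      intro t t' htt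
      simp only [M] at htt
      have h1 : x (true :: List.ofFn t) ∈ x (true :: List.ofFn t') ::ₘ
          x (false :: (List.ofFn t').map not) ::ₘ Multiset.replicate k (x []) := by
        rw [← htt]
        exact Multiset.mem_cons_self _ _
      rw [Multiset.mem_cons, Multiset.mem_cons] at h1
      rcases h1 with h1 | h1 | h1
      · have := hxI _ _ (by simp) h1
        exact List.ofFn_injective (List.cons.inj this).2
      · have := hxI _ _ (by simp) h1
        exact absurd (List.cons.inj this).1 (by simp)
      · have h2 : x (true :: List.ofFn t) = x [] := Multiset.eq_of_mem_replicate h1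
        have h3 : (a ++ I (true :: List.ofFn t) ++ b).length = (a ++ I [] ++ b).length := by
          rw [← hx, ← hx, h2]
        rw [List.length_append, List.length_append, List.length_append, List.length_append, hI,
          inner_length hu hv, inner_length hu hv] at h3
        simp only [List.length_cons, List.length_nil, List.length_ofFn, zero_mul] at h3
        have h4 : u.length + v.length ≠ 0 := by
          intro h0
          apply hne'
          have e1 : u.length = 0 := by omega
          have e2 : v.length = 0 := by omega
          rw [List.length_eq_zero_iff.1 e1, List.length_eq_zero_iff.1 e2]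
          rw [e1] at hu
          rw [e2] at hv
          exact ⟨(List.length_eq_zero_iff.1 hu.symm).symm, (List.length_eq_zero_iff.1 hv.symm).symm⟩
        have h5 : 0 < (m + 1) * (u.length + v.length) :=
          Nat.mul_pos (by omega) (Nat.pos_of_ne_zero h4)
        omega
    have hsub : Set.range (fun t : Fin m → Bool => M (List.ofFn t)) ⊆ reps A (k + 2) N := by
      rintro _ ⟨t, rfl⟩
      refine ⟨by simp [M], ?_, hsum _ (by simp)⟩
      intro y hy
      simp only [M, Multiset.mem_cons] at hy
      rcases hy with rfl | rfl | hy
      · exact hxA _
      · exact hxA _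
      · rw [Multiset.eq_of_mem_replicate hy]
        exact hxA _
    have hcard : (Set.range (fun t : Fin m → Bool => M (List.ofFn t))).ncard = 2 ^ m := by
      rw [← Set.image_univ, Set.ncard_image_of_injective _ hinj, Set.ncard_univ,
        Nat.card_eq_fintype_card]
      simp
    rw [← hcard]
    exact Set.ncard_le_ncard hsub (reps_finite _ _ _)

end Pool.Agent.Q208.CF
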