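import Pool.Agent.Q208.CF.Automatic
import Pool.Agent.Q123.CU.Pow

/-!
# Density thresholds inside the class of the context-free sets
-/

set_option autoImplicit false

open Set Filter

namespace Pool.Agent.Q208.CF.Th

/-- the number of ordered representations of `n` as a sum of two elements of `A` -/
noncomputable def rep (A : Set ℕ) (n : ℕ) : ℕ :=
  Set.ncard {p : ℕ × ℕ | p.1 ∈ A ∧ p.2 ∈ A ∧ p.1 + p.2 = n}

/-- `|A ∩ {1, …, N}|` -/
noncomputable def count (A : Set ℕ) (N : ℕ) : ℕ := (A ∩ Set.Icc 1 N).ncard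

theorem pairs_finite (A : Set ℕ) (n : ℕ) :
    {p : ℕ × ℕ | p.1 ∈ A ∧ p.2 ∈ A ∧ p.1 + p.2 = n}.Finite := by
  refine (Finset.HasAntidiagonal.antidiagonal n).finite_toSet.subset ?_
  rintro p ⟨-, -, h⟩
  exact Finset.mem_coe.2 (Finset.HasAntidiagonal.mem_antidiagonal.2 h)

theorem reps_le (A : Set ℕ) (n : ℕ) : (reps A 2 n).ncard ≤ rep A n := by
  refine le_trans ?_ (Set.ncard_image_le (f := fun p : ℕ × ℕ => ({p.1, p.2} : Multiset ℕ))
    (pairs_finite A n))
  refine Set.ncard_le_ncard ?_ ((pairs_finite A n).image _)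
  rintro s ⟨h1, h2, h3⟩
  obtain ⟨x, y, rfl⟩ := Multiset.card_eq_two.1 h1
  refine ⟨(x, y), ⟨h2 x (by simp), h2 y (by simp), ?_⟩, rfl⟩
  simpa using h3

theorem rep_eq (A : Set ℕ) (n : ℕ) : rep A n = Q123.ET.rep A n := by
  classical
  unfold rep Q123.ET.rep
  rw [← Set.ncard_coe_finset]
  congr 1
  ext p
  simp only [Set.mem_ofPred_eq, Finset.coe_filter, Finset.HasAntidiagonal.mem_antidiagonal]
  tauto

theorem rep_mono {A B : Set ℕ} (h : B ⊆ A) (n : ℕ) : rep B n ≤ rep A n := by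
  refine Set.ncard_le_ncard ?_ (pairs_finite A n)
  rintro p ⟨h1, h2, h3⟩
  exact ⟨h h1, h h2, h3⟩

/-- for some `K`, `rep A n ≥ n ^ (1 / K)` for arbitrarily large `n` -/
def Power (A : Set ℕ) : Prop := ∃ K : ℕ, ∀ M : ℕ, ∃ n : ℕ, M ≤ n ∧ n ≤ rep A n ^ K

theorem Power.mono {A B : Set ℕ} (h : B ⊆ A) (hB : Power B) : Power A := by
  obtain ⟨K, hK⟩ := hB
  refine ⟨K, fun M => ?_⟩
  obtain ⟨n, hn, hn2⟩ := hK M
  exact ⟨n, hn, hn2.trans (Nat.pow_le_pow_left (rep_mono h n) K)⟩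

theorem Power.unbounded {A : Set ℕ} (h : Power A) (M : ℕ) : ∃ n, M ≤ rep A n := by
  obtain ⟨K, hK⟩ := h
  by_contra hcon
  push Not at hcon
  obtain ⟨n, hn, hn2⟩ := hK (M ^ K + 1)
  have h1 : rep A n ^ K ≤ M ^ K := Nat.pow_le_pow_left (hcon n).le K
  omega

theorem power_of_exp {A : Set ℕ} {g c : ℕ}
    (H : ∀ m : ℕ, ∃ N : ℕ, N ≤ g ^ (c * (m + 1)) ∧ 2 ^ m ≤ rep A N) : Power A := by
  refine ⟨2 * (g * c), fun M => ?_⟩
  obtain ⟨B, hB⟩ : ∃ B, ∀ n < M, rep A n ≤ B := by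
    refine ⟨∑ n ∈ Finset.range M, rep A n, fun n hn => ?_⟩
    exact Finset.single_le_sum (f := fun n => rep A n) (fun _ _ => Nat.zero_le _)
      (Finset.mem_range.2 hn)
  obtain ⟨N, hN1, hN2⟩ := H (B + 1)
  refine ⟨N, ?_, ?_⟩
  · by_contra hlt
    have h1 := hB N (by omega)
    have h2 : B + 1 < 2 ^ (B + 1) := Nat.lt_two_pow_self
    omega
  · calc N ≤ g ^ (c * (B + 1 + 1)) := hN1
      _ ≤ (2 ^ g) ^ (c * (B + 1 + 1)) := Nat.pow_le_pow_left Nat.lt_two_pow_self.le _
      _ = 2 ^ (g * c * (B + 1 + 1)) := by rw [← pow_mul, mul_assoc]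
      _ ≤ 2 ^ ((B + 1) * (2 * (g * c))) := by
        refine Nat.pow_le_pow_right (by omega) ?_
        have : (B + 1) * (2 * (g * c)) = g * c * (B + 1 + 1) + g * c * B := by ring
        omega
      _ = (2 ^ (B + 1)) ^ (2 * (g * c)) := pow_mul _ _ _
      _ ≤ rep A N ^ (2 * (g * c)) := Nat.pow_le_pow_left hN2 _

theorem log_le {N : ℕ} (hN : 2 ≤ N) : ((Nat.log 2 N : ℕ) : ℝ) + 3 ≤ 6 * Real.log N := by
  have h1 : (2 : ℝ) ^ Nat.log 2 N ≤ N := by exact_mod_cast Nat.pow_log_le_self 2 (by omega)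
  have h2 : (Nat.log 2 N : ℝ) * Real.log 2 ≤ Real.log N := by
    rw [← Real.log_pow]
    exact Real.log_le_log (by positivity) h1
  have h3 := Real.log_two_gt_d9
  have h4 : Real.log 2 ≤ Real.log N := Real.log_le_log (by norm_num) (by exact_mod_cast hN)
  have h5 : (0 : ℝ) ≤ Nat.log 2 N := Nat.cast_nonneg _
  nlinarith

/-- thin sets and power large sets -/
theorem dichotomy {g : ℕ} (hg : 2 ≤ g) {B : Set ℕ}
    (hB : Language.IsContextFree (T := ℕ) (Nat.digits g '' B)) :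
    (∃ E : ℕ, ∀ N : ℕ, 2 ≤ N → (count B N : ℝ) ≤ (6 * Real.log N) ^ E) ∨ Power B := by
  obtain ⟨G, hG⟩ := hB
  by_cases hN : NoPair G
  · left
    obtain ⟨E, hE⟩ := polynomial_growth hN
    refine ⟨E, fun N hN2 => ?_⟩
    obtain ⟨n, hn⟩ : ∃ n, n = Nat.log g N + 1 := ⟨_, rfl⟩
    obtain ⟨F, hF, hF2⟩ := hE n
    have h1 : count B N ≤ (n + 2) ^ E := by
      refine le_trans ?_ hF
      unfold count
      rw [← Set.ncard_coe_finset]
      refine Set.ncard_le_ncard_of_injOn (Nat.digits g) ?_ ?_ F.finite_toSet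
      · rintro a ⟨ha, ha2⟩
        have h1 : Nat.digits g a ∈ G.language := by
          rw [hG]
          exact ⟨a, ha, rfl⟩
        refine hF2 _ h1 ((Nat.digits_length_le_iff (by omega) a).2 ?_)
        rw [hn]
        exact ha2.2.trans_lt (Nat.lt_pow_succ_log_self (by omega) N)
      · intro a _ b _ hab
        exact Nat.digits_inj_iff.1 hab
    have h2 : (n : ℝ) + 2 ≤ 6 * Real.log N := by
      have h3 : Nat.log g N ≤ Nat.log 2 N := Nat.log_anti_left (by norm_num) hg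
      have h4 : (Nat.log g N : ℝ) ≤ Nat.log 2 N := by exact_mod_cast h3
      have h5 := log_le hN2
      rw [hn]
      push_cast
      linarith
    calc (count B N : ℝ) ≤ (((n + 2) ^ E : ℕ) : ℝ) := by exact_mod_cast h1
      _ = ((n : ℝ) + 2) ^ E := by push_cast; ring
      _ ≤ (6 * Real.log N) ^ E := pow_le_pow_left₀ (by positivity) h2 E
  · right
    obtain ⟨c, hc⟩ := many_of_not_noPair hg hG hN 2 le_rfl
    refine power_of_exp (g := g) (c := c) fun m => ?_
    obtain ⟨N, h1, h2⟩ := hc m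
    exact ⟨N, h1, h2.trans (reps_le B N)⟩

/-! ### sums of few powers of two -/

theorem half_sum (S : Finset ℕ) : (∑ i ∈ S, 2 ^ i) =
    2 * (∑ i ∈ (S.erase 0).image (fun i => i - 1), 2 ^ i) + (if 0 ∈ S then 1 else 0) := by
  have h1 : 2 * ∑ i ∈ (S.erase 0).image (fun i => i - 1), 2 ^ i = ∑ i ∈ S.erase 0, 2 ^ i := by
    rw [Finset.sum_image, Finset.mul_sum]
    · refine Finset.sum_congr rfl fun i hi => ?_
      have : i ≠ 0 := (Finset.mem_erase.1 hi).1
      obtain ⟨j, rfl⟩ := Nat.exists_eq_succ_of_ne_zero this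
      rw [Nat.succ_sub_one, Nat.succ_eq_add_one, pow_succ, mul_comm]
    · intro i hi j hj hij
      have h1 : i ≠ 0 := (Finset.mem_erase.1 hi).1
      have h2 : j ≠ 0 := (Finset.mem_erase.1 hj).1
      simp only at hij
      omega
  rw [h1]
  by_cases h0 : 0 ∈ S
  · rw [if_pos h0, ← Finset.sum_erase_add _ _ h0, pow_zero]
  · rw [if_neg h0, Finset.erase_eq_of_notMem h0, add_zero]

theorem digitSum_le : ∀ (n : ℕ) (S : Finset ℕ), n = ∑ i ∈ S, 2 ^ i →
    (Nat.digits 2 n).sum ≤ S.card := by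
  intro n
  induction n using Nat.strong_induction_on with
  | _ n ih =>
    intro S hS
    rcases Nat.eq_zero_or_pos n with h0 | h0
    · rw [h0]
      simp
    · obtain ⟨m, hm⟩ : ∃ m, m = ∑ i ∈ (S.erase 0).image (fun i => i - 1), 2 ^ i := ⟨_, rfl⟩
      have h1 := half_sum S
      rw [← hS, ← hm] at h1
      have hc : ((S.erase 0).image (fun i => i - 1)).card ≤ (S.erase 0).card :=
        Finset.card_image_le
      have h3 : n / 2 = m ∧ n % 2 = (if 0 ∈ S then 1 else 0) := by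
        by_cases h2 : 0 ∈ S
        · rw [if_pos h2] at h1 ⊢
          omega
        · rw [if_neg h2] at h1 ⊢
          omega
      have h4 := ih m (by omega) _ hm
      rw [Nat.digits_def' (by norm_num) h0, List.sum_cons, h3.1, h3.2]
      by_cases h2 : 0 ∈ S
      · rw [if_pos h2]
        have h5 := Finset.card_erase_add_one h2
        omega
      · rw [if_neg h2]
        rw [Finset.erase_eq_of_notMem h2] at hc h4
        omega

theorem exists_finset : ∀ n : ℕ, ∃ S : Finset ℕ, S.card = (Nat.digits 2 n).sum ∧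
    n = ∑ i ∈ S, 2 ^ i := by
  intro n
  induction n using Nat.strong_induction_on with
  | _ n ih =>
    rcases Nat.eq_zero_or_pos n with h0 | h0
    · exact ⟨∅, by rw [h0]; simp, by rw [h0]; simp⟩
    · obtain ⟨S, hS1, hS2⟩ := ih (n / 2) (by omega)
      have hinj : Function.Injective Nat.succ := Nat.succ_injective
      obtain ⟨S', hS'⟩ : ∃ S' : Finset ℕ, S' = S.image Nat.succ := ⟨_, rfl⟩
      have h0S : 0 ∉ S' := by
        rw [hS']
        simp
      have hc : S'.card = S.card := by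
        rw [hS', Finset.card_image_of_injective _ hinj]
      have hs : ∑ i ∈ S', 2 ^ i = 2 * (n / 2) := by
        rw [hS', Finset.sum_image (fun _ _ _ _ h => hinj h), hS2, Finset.mul_sum]
        refine Finset.sum_congr rfl fun i _ => ?_
        rw [Nat.succ_eq_add_one, pow_succ, mul_comm]
      rw [Nat.digits_def' (by norm_num) h0, List.sum_cons]
      rcases Nat.mod_two_eq_zero_or_one n with h1 | h1
      · refine ⟨S', by rw [h1, hc, hS1, zero_add], ?_⟩
        rw [hs]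
        omega
      · refine ⟨insert 0 S', ?_, ?_⟩
        · rw [Finset.card_insert_of_notMem h0S, hc, hS1, h1, add_comm]
        · rw [Finset.sum_insert h0S, hs, pow_zero]
          omega

theorem mem_PP {k n : ℕ} : n ∈ Q123.CU.PP k ↔ (Nat.digits 2 n).sum ≤ k := by
  constructor
  · rintro ⟨S, hS, hn⟩
    exact (digitSum_le n S hn).trans hS
  · intro h
    obtain ⟨S, hS, hn⟩ := exists_finset n
    exact ⟨S, by omega, hn⟩

/-- the automaton for the digit sum -/
def sumDFA (k : ℕ) : DFA ℕ (Fin (k + 2)) where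
  step s d := ⟨min (s.1 + d) (k + 1), by omega⟩
  start := ⟨0, by omega⟩
  accept := {s | s.1 ≤ k}

theorem sumDFA_eval (k : ℕ) (w : List ℕ) : ∀ s : Fin (k + 2),
    (((sumDFA k).evalFrom s w : Fin (k + 2)) : ℕ) = min (s.1 + w.sum) (k + 1) := by
  induction w with
  | nil =>
    intro s
    rw [DFA.evalFrom_nil, List.sum_nil]
    have := s.2
    omega
  | cons a w ih =>
    intro s
    rw [DFA.evalFrom_cons, ih, List.sum_cons]
    show min (min (s.1 + a) (k + 1) + w.sum) (k + 1) = _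
    omega

theorem PP_automatic (k : ℕ) : ∃ (σ : Type) (_ : Fintype σ) (M : DFA ℕ σ),
    ∀ n, Nat.digits 2 n ∈ M.accepts ↔ n ∈ Q123.CU.PP k := by
  refine ⟨Fin (k + 2), inferInstance, sumDFA k, fun n => ?_⟩
  rw [mem_PP, DFA.mem_accepts]
  have h1 := sumDFA_eval k (Nat.digits 2 n) (sumDFA k).start
  have h2 : ((sumDFA k).start : Fin (k + 2)).1 = 0 := rfl
  rw [h2, zero_add] at h1
  show ((sumDFA k).evalFrom (sumDFA k).start (Nat.digits 2 n)).1 ≤ k ↔ _
  rw [h1]
  omega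

theorem PP_count {k : ℕ} (hk : 1 ≤ k) : ∃ C : ℝ, 0 < C ∧ ∀ᶠ N : ℕ in atTop,
    Real.log N ^ k ≤ C * count (Q123.CU.PP k) N := by
  refine ⟨2 ^ (k + 1) * k.factorial, by positivity, ?_⟩
  filter_upwards [eventually_ge_atTop (2 ^ (2 * k + 2))] with N hN
  obtain ⟨s, hs⟩ : ∃ s, s = Nat.log 2 N := ⟨_, rfl⟩
  have hN0 : N ≠ 0 := by
    have : 0 < 2 ^ (2 * k + 2) := by positivity
    omega
  have hs1 : 2 * k + 2 ≤ s := by
    rw [hs]
    exact Nat.le_log_of_pow_le (by norm_num) hN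
  have hs2 : 2 ^ s ≤ N := by
    rw [hs]
    exact Nat.pow_log_le_self 2 hN0
  have hs3 : N < 2 ^ (s + 1) := by
    rw [hs]
    exact Nat.lt_pow_succ_log_self (by norm_num) N
  -- the logarithm
  have h1 : Real.log N ≤ s + 1 := by
    have h2 : Real.log N ≤ Real.log ((2 : ℝ) ^ (s + 1)) :=
      Real.log_le_log (by exact_mod_cast Nat.pos_of_ne_zero hN0) (by exact_mod_cast hs3.le)
    rw [Real.log_pow] at h2
    have h3 : Real.log 2 ≤ 1 := by
      have := Real.log_two_lt_d9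
      linarith
    have h4 : ((s + 1 : ℕ) : ℝ) * Real.log 2 ≤ (s + 1 : ℕ) * 1 :=
      mul_le_mul_of_nonneg_left h3 (Nat.cast_nonneg _)
    push_cast at h2 h4
    linarith
  have hl0 : 0 ≤ Real.log N := Real.log_nonneg (by exact_mod_cast Nat.pos_of_ne_zero hN0)
  -- the binomial coefficient
  have h2 : ((s + 1 - k : ℕ) : ℝ) ^ k / k.factorial ≤ (s.choose k : ℝ) := Nat.pow_le_choose k s
  have h3 : ((s : ℝ) + 1) ≤ 2 * ((s + 1 - k : ℕ) : ℝ) := by
    have h4 : s + 1 ≤ 2 * (s + 1 - k) := by omega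
    have h5 : ((s + 1 : ℕ) : ℝ) ≤ ((2 * (s + 1 - k) : ℕ) : ℝ) := by exact_mod_cast h4
    push_cast at h5
    exact h5
  have h4 : Real.log N ^ k ≤ 2 ^ k * k.factorial * (s.choose k : ℝ) := by
    calc Real.log N ^ k ≤ ((s : ℝ) + 1) ^ k := pow_le_pow_left₀ hl0 h1 k
      _ ≤ (2 * ((s + 1 - k : ℕ) : ℝ)) ^ k := pow_le_pow_left₀ (by positivity) h3 k
      _ = 2 ^ k * k.factorial * (((s + 1 - k : ℕ) : ℝ) ^ k / k.factorial) := by
        rw [mul_pow]
        field_simp
      _ ≤ 2 ^ k * k.factorial * (s.choose k : ℝ) := mul_le_mul_of_nonneg_left h2 (by positivity)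
  have h5 : s.choose k ≤ count (Q123.CU.PP k) N + 1 := by
    refine (Q123.CU.cnt_PP k s).trans ?_
    classical
    unfold Q123.ET.cnt count
    rw [← Set.ncard_coe_finset]
    have hfin : (Q123.CU.PP k ∩ Set.Icc 1 N).Finite := (Set.finite_Icc 1 N).subset inter_subset_right
    refine (Set.ncard_le_ncard ?_ (hfin.insert 0)).trans (Set.ncard_insert_le 0 _)
    intro a ha
    rw [Finset.coe_filter, Set.mem_ofPred_eq, Finset.mem_range] at ha
    rcases Nat.eq_zero_or_pos a with h0 | h0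
    · left
      exact h0
    · right
      exact ⟨ha.2, h0, by omega⟩
  have h6 : 2 ≤ s.choose k := by
    have h7 : (k + 1).choose k ≤ s.choose k := Nat.choose_le_choose k (by omega)
    rw [Nat.choose_succ_self_right] at h7
    omega
  have h7 : (s.choose k : ℝ) ≤ 2 * (count (Q123.CU.PP k) N : ℝ) := by
    have h8 : s.choose k ≤ 2 * count (Q123.CU.PP k) N := by omega
    exact_mod_cast h8
  calc Real.log N ^ k ≤ 2 ^ k * k.factorial * (s.choose k : ℝ) := h4
    _ ≤ 2 ^ k * k.factorial * (2 * (count (Q123.CU.PP k) N : ℝ)) :=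
      mul_le_mul_of_nonneg_left h7 (by positivity)
    _ = 2 ^ (k + 1) * k.factorial * count (Q123.CU.PP k) N := by ring

end Pool.Agent.Q208.CF.Th
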