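import Mathlib

/-!
# Derivations of a context-free grammar with restricted nonterminals, and polynomial growth

If no nonterminal has two different contexts of the same shape, then the language has only
polynomially many words of length at most `n`.
-/

set_option autoImplicit false

open Set

namespace Pool.Agent.Q208.CF

variable {T : Type} (G : ContextFreeGrammar.{0} T)

/-- `D G S α w`: the sentential form `α` derives the terminal word `w`, by a derivation tree all of
whose nonterminals lie in `S`. -/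
inductive D (S : Set G.NT) : List (Symbol T G.NT) → List T → Prop
  | nil : D S [] []
  | term (t : T) (α : List (Symbol T G.NT)) (w : List T) :
      D S α w → D S (Symbol.terminal t :: α) (t :: w)
  | nt (r : ContextFreeRule T G.NT) (α : List (Symbol T G.NT)) (w₁ w₂ : List T) :
      r ∈ G.rules → r.input ∈ S → D S r.output w₁ → D S α w₂ →
      D S (Symbol.nonterminal r.input :: α) (w₁ ++ w₂)

variable {G}

theorem D.mono {S S' : Set G.NT} (hS : S ⊆ S') {α : List (Symbol T G.NT)} {w : List T}
    (h : D G S α w) : D G S' α w := by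
  induction h with
  | nil => exact D.nil
  | term t α w _ ih => exact D.term t α w ih
  | nt r α w₁ w₂ hr hS1 _ _ ih1 ih2 => exact D.nt r α w₁ w₂ hr (hS hS1) ih1 ih2

theorem D.append {S : Set G.NT} {α β : List (Symbol T G.NT)} {w v : List T}
    (h : D G S α w) (h' : D G S β v) : D G S (α ++ β) (w ++ v) := by
  induction h with
  | nil => exact h'
  | term t α w _ ih => exact D.term t _ _ ih
  | nt r α w₁ w₂ hr hS1 h1 _ _ ih2 =>
    rw [List.append_assoc]
    exact D.nt r _ _ _ hr hS1 h1 ih2

theorem D.split {S : Set G.NT} (α : List (Symbol T G.NT)) : ∀ {β : List (Symbol T G.NT)}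
    {w : List T}, D G S (α ++ β) w → ∃ w₁ w₂, w = w₁ ++ w₂ ∧ D G S α w₁ ∧ D G S β w₂ := by
  induction α with
  | nil => intro β w h; exact ⟨[], w, rfl, D.nil, h⟩
  | cons s α ih =>
    intro β w h
    rw [List.cons_append] at h
    generalize hγ : s :: (α ++ β) = γ at h
    cases h with
    | nil => exact absurd hγ (by simp)
    | term t δ v h1 =>
      obtain ⟨rfl, rfl⟩ := List.cons.inj hγ
      obtain ⟨w₁, w₂, rfl, h2, h3⟩ := ih h1
      exact ⟨t :: w₁, w₂, rfl, D.term t _ _ h2, h3⟩
    | nt r δ v₁ v₂ hr hS1 h1 h2 =>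
      obtain ⟨rfl, rfl⟩ := List.cons.inj hγ
      obtain ⟨w₁, w₂, rfl, h3, h4⟩ := ih h2
      exact ⟨v₁ ++ w₁, w₂, by simp, D.nt r _ _ _ hr hS1 h1 h3, h4⟩

theorem D.terminals {S : Set G.NT} (w : List T) : D G S (w.map Symbol.terminal) w := by
  induction w with
  | nil => exact D.nil
  | cons t w ih => exact D.term t _ _ ih

/-- A derivation of a single nonterminal starts with a rule. -/
theorem D.single {S : Set G.NT} {X : G.NT} {w : List T} (h : D G S [Symbol.nonterminal X] w) :
    ∃ r ∈ G.rules, r.input = X ∧ X ∈ S ∧ D G S r.output w := by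
  generalize hγ : [Symbol.nonterminal X] = γ at h
  cases h with
  | nil => exact absurd hγ (by simp)
  | term t δ v h1 => exact absurd (List.cons.inj hγ).1 (by simp)
  | nt r δ v₁ v₂ hr hS1 h1 h2 =>
    obtain ⟨h3, rfl⟩ := List.cons.inj hγ
    have h4 : X = r.input := Symbol.nonterminal.inj h3
    subst h4
    cases h2
    rw [List.append_nil]
    exact ⟨r, hr, rfl, hS1, h1⟩

theorem D.of_rule {S : Set G.NT} {r : ContextFreeRule T G.NT} {w : List T} (hr : r ∈ G.rules)
    (hS : r.input ∈ S) (h : D G S r.output w) : D G S [Symbol.nonterminal r.input] w := by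
  have := D.nt r [] w [] hr hS h D.nil
  rwa [List.append_nil] at this

theorem D.of_derives {α : List (Symbol T G.NT)} {w : List T}
    (h : G.Derives α (w.map Symbol.terminal)) : D G univ α w := by
  unfold ContextFreeGrammar.Derives at h
  induction h using Relation.ReflTransGen.head_induction_on with
  | refl => exact D.terminals w
  | head h1 _ ih =>
    obtain ⟨r, hr, h2⟩ := h1
    obtain ⟨p, q, rfl, rfl⟩ := h2.exists_parts
    obtain ⟨w₁, w₂, rfl, h3, h4⟩ := D.split _ ih
    obtain ⟨w₃, w₄, rfl, h5, h6⟩ := D.split _ h3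
    exact D.append (D.append h5 (D.of_rule hr (mem_univ _) h6)) h4

theorem D.derives {S : Set G.NT} {α : List (Symbol T G.NT)} {w : List T} (h : D G S α w) :
    G.Derives α (w.map Symbol.terminal) := by
  induction h with
  | nil => exact ContextFreeGrammar.Derives.refl _
  | term t α w _ ih => exact ih.append_left [Symbol.terminal t]
  | nt r α w₁ w₂ hr _ _ _ ih1 ih2 =>
    have h1 : G.Produces (Symbol.nonterminal r.input :: α) (r.output ++ α) :=
      ⟨r, hr, ContextFreeRule.Rewrites.head α⟩
    refine h1.single.trans ?_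
    rw [List.map_append]
    exact (ih1.append_right α).trans (ih2.append_left _)

/-- The language of `G` in terms of derivation trees. -/
theorem mem_language_iff (w : List T) :
    w ∈ G.language ↔ D G univ [Symbol.nonterminal G.initial] w := by
  rw [ContextFreeGrammar.mem_language_iff]
  exact ⟨D.of_derives, D.derives⟩

/-- Deepest occurrence of the nonterminal `X`. -/
theorem deep {S : Set G.NT} (X : G.NT) {α : List (Symbol T G.NT)} {w : List T}
    (h : D G S α w) : D G (S \ {X}) α w ∨ ∃ u z v, w = u ++ z ++ v ∧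
      (∃ r ∈ G.rules, r.input = X ∧ D G (S \ {X}) r.output z) ∧
      ∀ z', D G univ [Symbol.nonterminal X] z' → D G univ α (u ++ z' ++ v) := by
  induction h with
  | nil => exact Or.inl D.nil
  | term t α w _ ih =>
    rcases ih with ih | ⟨u, z, v, rfl, h1, h2⟩
    · exact Or.inl (D.term t _ _ ih)
    · exact Or.inr ⟨t :: u, z, v, rfl, h1, fun z' hz' => D.term t _ _ (h2 z' hz')⟩
  | nt r α w₁ w₂ hr hS h1 h2 ih1 ih2 =>
    rcases ih2 with ih2 | ⟨u, z, v, rfl, h3, h4⟩
    · rcases ih1 with ih1 | ⟨u, z, v, rfl, h3, h4⟩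
      · by_cases hX : r.input = X
        · refine Or.inr ⟨[], w₁, w₂, by simp, ⟨r, hr, hX, ih1⟩, fun z' hz' => ?_⟩
          rw [← hX] at hz'
          exact D.append hz' (h2.mono (subset_univ _))
        · exact Or.inl (D.nt r _ _ _ hr ⟨hS, hX⟩ ih1 ih2)
      · refine Or.inr ⟨u, z, v ++ w₂, by simp, h3, fun z' hz' => ?_⟩
        have := D.nt r α _ w₂ hr (mem_univ _) (h4 z' hz') (h2.mono (subset_univ _))
        simpa using this
    · refine Or.inr ⟨w₁ ++ u, z, v, by simp, h3, fun z' hz' => ?_⟩
      have := D.nt r α w₁ _ hr (mem_univ _) (h1.mono (subset_univ _)) (h4 z' hz')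
      simpa using this

/-- `Y` occurs in the context `(u, v)` below `X`. -/
def Ctx (G : ContextFreeGrammar.{0} T) (X Y : G.NT) (u v : List T) : Prop :=
  ∀ z, D G univ [Symbol.nonterminal Y] z → D G univ [Symbol.nonterminal X] (u ++ z ++ v)

/-- `X` is reachable. -/
def Good (G : ContextFreeGrammar.{0} T) (X : G.NT) : Prop := ∃ a b, Ctx G G.initial X a b

theorem good_initial : Good G G.initial := ⟨[], [], fun z hz => by simpa using hz⟩

theorem good_of_mem {X Y : G.NT} (hX : Good G X) {r : ContextFreeRule T G.NT} (hr : r ∈ G.rules)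
    (hrX : r.input = X) (hY : Symbol.nonterminal Y ∈ r.output) {z : List T}
    (hz : D G univ r.output z) : Good G Y := by
  obtain ⟨a, b, hab⟩ := hX
  obtain ⟨p, q, hpq⟩ := List.append_of_mem hY
  rw [hpq] at hz
  obtain ⟨z₁, z₂, rfl, h1, h2⟩ := D.split _ hz
  obtain ⟨z₃, z₄, rfl, h3, h4⟩ := D.split [Symbol.nonterminal Y] h2
  refine ⟨a ++ z₁, z₄ ++ b, fun z' hz' => ?_⟩
  have h5 : D G univ r.output (z₁ ++ (z' ++ z₄)) := by
    rw [hpq]
    exact D.append h1 (D.append hz' h4)
  have h6 := D.of_rule hr (mem_univ _) h5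
  rw [hrX] at h6
  have h7 := hab _ h6
  simpa using h7

/-- No reachable productive nonterminal has two different contexts of the same shape. -/
def NoPair (G : ContextFreeGrammar.{0} T) : Prop :=
  ∀ X : G.NT, Good G X → (∃ z, D G univ [Symbol.nonterminal X] z) → ∀ u v u' v' : List T,
    Ctx G X X u v → Ctx G X X u' v' → u.length = u'.length → v.length = v'.length →
    u = u' ∧ v = v'

open Classical in
theorem body_bound (S : Set G.NT) (n B : ℕ) (hB : 1 ≤ B)
    (h : ∀ Y, Good G Y → ∃ F : Finset (List T), F.card ≤ B ∧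
      ∀ w : List T, w.length ≤ n → D G S [Symbol.nonterminal Y] w → w ∈ F) :
    ∀ α : List (Symbol T G.NT), (∀ Y, Symbol.nonterminal Y ∈ α → Good G Y) →
      ∃ F : Finset (List T), F.card ≤ B ^ α.length ∧
        ∀ w : List T, w.length ≤ n → D G S α w → w ∈ F := by
  intro α
  induction α with
  | nil =>
    intro _
    refine ⟨{[]}, by simp, fun w _ hw => ?_⟩
    cases hw
    simp
  | cons s α ih =>
    intro hα
    obtain ⟨F, hF, hF2⟩ := ih fun Y hY => hα Y (List.mem_cons_of_mem _ hY)
    cases s with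
    | terminal t =>
      refine ⟨F.image (List.cons t), ?_, fun w hw hD => ?_⟩
      · refine Finset.card_image_le.trans (hF.trans ?_)
        exact Nat.pow_le_pow_right hB (by simp)
      · generalize hγ : Symbol.terminal t :: α = γ at hD
        cases hD with
        | nil => exact absurd hγ (by simp)
        | term t' δ v h1 =>
          obtain ⟨h2, rfl⟩ := List.cons.inj hγ
          have h3 : t = t' := Symbol.terminal.inj h2
          subst h3
          rw [Finset.mem_image]
          exact ⟨v, hF2 v (by simp at hw; omega) h1, rfl⟩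
        | nt r δ v₁ v₂ hr hS1 h1 h2 => exact absurd (List.cons.inj hγ).1 (by simp)
    | nonterminal Y =>
      obtain ⟨F', hF', hF2'⟩ := h Y (hα Y (by simp))
      refine ⟨Finset.image₂ (fun a b => a ++ b) F' F, ?_, fun w hw hD => ?_⟩
      · refine (Finset.card_image₂_le _ _ _).trans ?_
        rw [List.length_cons, pow_succ, mul_comm]
        exact Nat.mul_le_mul hF hF'
      · obtain ⟨w₁, w₂, rfl, h1, h2⟩ := D.split [Symbol.nonterminal Y] hD
        rw [List.length_append] at hw
        rw [Finset.mem_image₂]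
        exact ⟨w₁, hF2' w₁ (by omega) h1, w₂, hF2 w₂ (by omega) h2, rfl⟩

/-- Maximal length of a rule body. -/
def maxLen (G : ContextFreeGrammar.{0} T) : ℕ := G.rules.sup fun r => r.output.length

open Classical in
theorem growth_step (hG : NoPair G) (S : Set G.NT) (X : G.NT) (hX : Good G X) (n E : ℕ)
    (h : ∀ Y, Good G Y → ∃ F : Finset (List T), F.card ≤ (n + 2) ^ E ∧
      ∀ w : List T, w.length ≤ n → D G (S \ {X}) [Symbol.nonterminal Y] w → w ∈ F) :
    ∃ F : Finset (List T), F.card ≤ (n + 2) ^ (2 + (G.rules.card + E * maxLen G)) ∧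
      ∀ w : List T, w.length ≤ n → D G S [Symbol.nonterminal X] w → w ∈ F := by
  have hB : 1 ≤ (n + 2) ^ E := Nat.one_le_pow _ _ (by omega)
  -- words derived from bodies of rules for X
  have hr : ∀ r : ContextFreeRule T G.NT, ∃ F : Finset (List T),
      (r ∈ G.rules → F.card ≤ (n + 2) ^ (E * maxLen G)) ∧
      (r ∈ G.rules → r.input = X → ∀ w : List T, w.length ≤ n → D G (S \ {X}) r.output w →
        w ∈ F) := by
    intro r
    by_cases hr : r ∈ G.rules ∧ r.input = X ∧ ∃ z, D G univ r.output z
    · obtain ⟨hr1, hr2, z, hz⟩ := hr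
      obtain ⟨F, hF, hF2⟩ := body_bound (S \ {X}) n _ hB h r.output fun Y hY =>
        good_of_mem hX hr1 hr2 hY hz
      refine ⟨F, fun _ => ?_, fun _ _ => hF2⟩
      refine hF.trans ?_
      rw [← pow_mul]
      refine Nat.pow_le_pow_right (by omega) (Nat.mul_le_mul_left _ ?_)
      exact Finset.le_sup (f := fun r : ContextFreeRule T G.NT => r.output.length) hr1
    · refine ⟨∅, fun _ => by simp, fun h1 h2 w _ hw => ?_⟩
      exact absurd ⟨h1, h2, w, hw.mono (subset_univ _)⟩ hr
  choose Fr hFr hFr2 using hr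
  let Fz : Finset (List T) := G.rules.biUnion Fr
  have hFz : Fz.card ≤ G.rules.card * (n + 2) ^ (E * maxLen G) :=
    Finset.card_biUnion_le_card_mul _ _ _ fun r hr => hFr r hr
  -- contexts
  let P : ℕ × ℕ → List T × List T → Prop := fun p c =>
    Ctx G X X c.1 c.2 ∧ c.1.length = p.1 ∧ c.2.length = p.2
  let cx : ℕ × ℕ → List T × List T := fun p => if h : ∃ c, P p c then h.choose else ([], [])
  have hcx : ∀ p, (∃ c, P p c) → P p (cx p) := by
    intro p hp
    have : cx p = hp.choose := dif_pos hp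
    rw [this]
    exact hp.choose_spec
  refine ⟨Finset.image₂ (fun p z => (cx p).1 ++ z ++ (cx p).2)
    (Finset.range (n + 1) ×ˢ Finset.range (n + 1)) Fz, ?_, fun w hw hD => ?_⟩
  · refine (Finset.card_image₂_le _ _ _).trans ?_
    rw [Finset.card_product, Finset.card_range, pow_add, pow_add]
    refine Nat.mul_le_mul ?_ (hFz.trans (Nat.mul_le_mul_right _ ?_))
    · rw [sq]
      exact Nat.mul_le_mul (by omega) (by omega)
    · exact (Nat.lt_pow_self (by omega : 1 < n + 2)).le
  · have hprod : ∃ z, D G univ [Symbol.nonterminal X] z := ⟨w, hD.mono (subset_univ _)⟩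
    rcases deep X hD with h1 | ⟨u, z, v, rfl, ⟨r, hr, hrX, hz⟩, h2⟩
    · obtain ⟨r, _, _, h3, _⟩ := h1.single
      exact absurd rfl h3.2
    · have hc : P (u.length, v.length) (u, v) := ⟨h2, rfl, rfl⟩
      have hc' := hcx (u.length, v.length) ⟨_, hc⟩
      obtain ⟨h3, h4⟩ := hG X hX hprod _ _ _ _ hc'.1 hc.1 hc'.2.1 hc'.2.2
      simp only [List.length_append] at hw
      rw [Finset.mem_image₂]
      refine ⟨(u.length, v.length), ?_, z, ?_, ?_⟩
      · simp only [Finset.mem_product, Finset.mem_range]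
        omega
      · exact Finset.mem_biUnion.2 ⟨r, hr, hFr2 r hr hrX z (by omega) hz⟩
      · simp only [h3, h4]

theorem growth (hG : NoPair G) : ∀ (k : ℕ) (S : Set G.NT), S.Finite → S.ncard = k →
    ∃ E : ℕ, ∀ n, ∀ Y, Good G Y → ∃ F : Finset (List T), F.card ≤ (n + 2) ^ E ∧
      ∀ w : List T, w.length ≤ n → D G S [Symbol.nonterminal Y] w → w ∈ F := by
  intro k
  induction k with
  | zero =>
    intro S hS hk
    refine ⟨0, fun n Y _ => ⟨∅, by simp, fun w _ hw => ?_⟩⟩
    obtain ⟨r, _, _, h, _⟩ := hw.single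
    rw [(Set.ncard_eq_zero hS).1 hk] at h
    exact absurd h (notMem_empty _)
  | succ k ih =>
    intro S hS hk
    have h1 : ∀ X ∈ S, ∃ E : ℕ, ∀ n, ∀ Y, Good G Y → ∃ F : Finset (List T),
        F.card ≤ (n + 2) ^ E ∧
        ∀ w : List T, w.length ≤ n → D G (S \ {X}) [Symbol.nonterminal Y] w → w ∈ F := by
      intro X hX
      apply ih (S \ {X}) hS.diff
      rw [Set.ncard_diff_singleton_of_mem hX, hk]
      rfl
    have h2 : ∀ X, ∃ E : ℕ, X ∈ S → ∀ n, ∀ Y, Good G Y → ∃ F : Finset (List T),
        F.card ≤ (n + 2) ^ E ∧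
        ∀ w : List T, w.length ≤ n → D G (S \ {X}) [Symbol.nonterminal Y] w → w ∈ F := by
      intro X
      by_cases hX : X ∈ S
      · obtain ⟨E, hE⟩ := h1 X hX
        exact ⟨E, fun _ => hE⟩
      · exact ⟨0, fun h => absurd h hX⟩
    choose E hE using h2
    let E' := hS.toFinset.sup E
    refine ⟨2 + (G.rules.card + E' * maxLen G), fun n Y hY => ?_⟩
    by_cases hYS : Y ∈ S
    · obtain ⟨F, hF, hF2⟩ := growth_step hG S Y hY n (E Y) (hE Y hYS n)
      refine ⟨F, hF.trans (Nat.pow_le_pow_right (by omega) ?_), hF2⟩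
      have : E Y ≤ E' := Finset.le_sup (f := E) (hS.mem_toFinset.2 hYS)
      gcongr
    · refine ⟨∅, by simp, fun w _ hw => ?_⟩
      obtain ⟨r, _, _, h, _⟩ := hw.single
      exact absurd h hYS

theorem D.restrict {α : List (Symbol T G.NT)} {w : List T} (h : D G univ α w) :
    D G {X | ∃ r ∈ G.rules, r.input = X} α w := by
  induction h with
  | nil => exact D.nil
  | term t α w _ ih => exact D.term t _ _ ih
  | nt r α w₁ w₂ hr _ _ _ ih1 ih2 => exact D.nt r α w₁ w₂ hr ⟨r, hr, rfl⟩ ih1 ih2

/-- **Polynomial growth** of context-free languages whose grammar has no branching context. -/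
theorem polynomial_growth (hG : NoPair G) : ∃ E : ℕ, ∀ n, ∃ F : Finset (List T),
    F.card ≤ (n + 2) ^ E ∧ ∀ w ∈ G.language, w.length ≤ n → w ∈ F := by
  classical
  have hfin : {X : G.NT | ∃ r ∈ G.rules, r.input = X}.Finite := by
    refine (G.rules.image fun r => r.input).finite_toSet.subset ?_
    rintro X ⟨r, hr, rfl⟩
    simp only [Finset.coe_image, mem_image, Finset.mem_coe]
    exact ⟨r, hr, rfl⟩
  obtain ⟨E, hE⟩ := growth hG _ _ hfin rfl
  refine ⟨E, fun n => ?_⟩
  obtain ⟨F, hF, hF2⟩ := hE n G.initial good_initial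
  exact ⟨F, hF, fun w hw hn => hF2 w hn ((mem_language_iff w).1 hw).restrict⟩

end Pool.Agent.Q208.CF
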